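import Mathlib
import Pool.Agent.H.MP_8ae77a_co.A

namespace Pool.Agent.Results.MP_8ae77a_co.More

open Filter Asymptotics

def BinTree {n : ℕ} {V : Type} (G : SimpleGraph V) (l : Fin n → V) : Prop :=
  G.IsTree ∧ (∀ v, (G.neighborSet v).ncard = 1 ∨ (G.neighborSet v).ncard = 3) ∧
    l.Injective ∧ Set.range l = {v | (G.neighborSet v).ncard = 1}

def Induced {n : ℕ} {V : Type} (G : SimpleGraph V) (l : Fin n → V) (P : Setoid (Fin n)) : Prop :=
  ∃ F ⊆ G.edgeSet, ∀ i j, P i j ↔ (G.deleteEdges F).Reachable (l i) (l j)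

open Finset Pool.Agent.H.MP_8ae77a_co in
theorem result (t : ℕ) (ht : 2 ≤ t) (f : ℕ → ℕ)
    (hf : (fun n => (f n : ℝ)) =o[atTop] fun n => (n : ℝ)) :
    ∀ᶠ n in atTop, ∃ k, 1 ≤ k ∧ k + f n < n ∧
      ∀ (V : Fin t → Type) [∀ i, Finite (V i)] (G : ∀ i, SimpleGraph (V i))
        (l : ∀ i, Fin n → V i), (∀ i, BinTree (G i) (l i)) →
        n.choose (k - 1) < {P : Setoid (Fin n) |
          (∀ i, Induced (G i) (l i) P) ∧ Nat.card (Quotient P) = k}.ncard := by
  filter_upwards [hf.bound (c := 1 / (2 * 3 ^ t)) (by positivity), eventually_ge_atTop (4 * 3 ^ t)]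
    with n h1 h2
  have h3 : 3 ^ t * (f n + 2) ≤ n := by
    rw [Real.norm_natCast, Real.norm_natCast, one_div_mul_eq_div, le_div_iff₀ (by positivity)] at h1
    have : f n * (2 * 3 ^ t) ≤ n := by exact_mod_cast h1
    nlinarith
  have h4 : f n + 4 ≤ n := by
    have := Nat.pow_le_pow_right (by omega : 0 < 3) ht
    nlinarith
  refine ⟨n - (f n + 2), by omega, by omega, fun V _ G l h => ?_⟩
  have lf (i j) : ((G i).neighborSet (l i j)).ncard = 1 := (Set.ext_iff.1 (h i).2.2.2 _).1 ⟨j, rfl⟩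
  obtain ⟨C', -, D', -, p1, p2, p3⟩ := iter (fun i => (h i).1)
    (fun i v => by have := (h i).2.1 v; omega) (fun i => (h i).2.2.1) (fun i => by
      obtain ⟨v, e⟩ := Set.ncard_eq_one.1 (lf i ⟨0, by omega⟩)
      exact ⟨_, v, (Set.ext_iff.1 e v).2 rfl⟩) univ (m := f n + 2) (by omega) (A := univ) (B := univ)
    (by simpa using h3) (by simpa using h3)
  obtain ⟨C, c1, c2⟩ := exists_subset_card_eq (n := 2) (s := C') (by omega)
  obtain ⟨D, d1, d2⟩ := exists_subset_card_eq p2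
  replace p3 (i) := (p3 i (mem_univ _)).mono c1 d1
  have dj : Disjoint C D := by
    obtain ⟨F, -, p, -, q1, q2⟩ := p3 ⟨0, by omega⟩
    exact disjoint_left.2 fun a x y => q2 a y (q1 a x)
  refine count _ (C := C) (D := D) (by omega) (by omega) dj (by omega)
    (fun L hL => ⟨fun i => ?_, ?_⟩) ⟨fun i => ?_, ?_⟩
  · exact real (h i).2.2.1 (lf i) L _ (Set.empty_subset _) fun a _ b _ => by
      simpa using (h i).1.connected _ _
  · rw [cardq, image_const (card_pos.1 (by rw [card_compl, Fintype.card_fin]; omega)), card_singleton]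
    omega
  · obtain ⟨F, q0, p, q1, q2, q3⟩ := p3 i
    have e (a) (ha : a ∉ (C ∪ D)ᶜ) : p (l i a) ↔ a ∈ C :=
      ⟨fun x => (mem_union.1 (not_not.1 (mt mem_compl.2 ha))).resolve_right (q3 a · x), q2 a⟩
    exact real (h i).2.2.1 (lf i) _ _ q0 fun a ha b hb => by
      rw [q1, e a ha, e b hb, decide_eq_decide]
  · have : (C ∪ D)ᶜᶜ.image (fun i => decide (i ∈ C)) = univ := by
      obtain ⟨a, ha⟩ := card_pos.1 (by omega : 0 < #C)
      obtain ⟨b, hb⟩ := card_pos.1 (by omega : 0 < #D)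
      refine eq_univ_of_forall fun x => mem_image.2 ?_
      cases x
      · exact ⟨b, by simp [hb], by simp [disjoint_right.1 dj hb]⟩
      · exact ⟨a, by simp [ha], by simp [ha]⟩
    rw [cardq, this, card_compl, card_union_of_disjoint dj, Fintype.card_fin]
    simp
    omega

end Pool.Agent.Results.MP_8ae77a_co.More
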